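import Mathlib

/-!
Back-and-forth construction: a dense Lebesgue null subgroup of the line is not plastic.
A point `(x, c)` stands for: `x` is sent to `x - c`.
-/

set_option autoImplicit false

open Set Filter Topology

namespace Pool.Agent.Lib.MP_4fc6a2_gt

/-- order on the pairs -/
def PLe (p q : ℝ × ℝ) : Prop := (p.2 = q.2 ∧ p.1 ≤ q.1) ∨ (p.2 < q.2 ∧ p.1 - p.2 < q.1 - q.2)

theorem PLe.trans {p q r : ℝ × ℝ} (h1 : PLe p q) (h2 : PLe q r) : PLe p r := by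
  rcases h1 with ⟨a, b⟩ | ⟨a, b⟩ <;> rcases h2 with ⟨c, d⟩ | ⟨c, d⟩
  · left; exact ⟨a.trans c, b.trans d⟩
  · right; constructor <;> linarith
  · right; constructor <;> linarith
  · right; constructor <;> linarith

theorem PLe.fst_le {p q : ℝ × ℝ} (h : PLe p q) : p.1 ≤ q.1 := by
  rcases h with ⟨a, b⟩ | ⟨a, b⟩ <;> linarith

theorem PLe.snd_le {p q : ℝ × ℝ} (h : PLe p q) : p.2 ≤ q.2 := by
  rcases h with ⟨a, b⟩ | ⟨a, b⟩ <;> linarith

theorem PLe.diff_le {p q : ℝ × ℝ} (h : PLe p q) : p.1 - p.2 ≤ q.1 - q.2 := by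
  rcases h with ⟨a, b⟩ | ⟨a, b⟩ <;> linarith

theorem PLe.refl (p : ℝ × ℝ) : PLe p p := Or.inl ⟨rfl, le_rfl⟩

/-- the data: a dense subgroup and a splitting of the identity into two monotone maps -/
structure Setup where
  G : AddSubgroup ℝ
  dense : Dense (G : Set ℝ)
  w : ℝ → ℝ
  m : ℝ → ℝ
  w_mono : Monotone w
  m_mono : Monotone m
  add : ∀ x, w x + m x = x

namespace Setup

variable (s : Setup)

theorem w_cont : Continuous s.w := by
  have : LipschitzWith 1 s.w := by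
    apply LipschitzWith.of_dist_le_mul
    intro x y
    simp only [NNReal.coe_one, one_mul, Real.dist_eq]
    have hx := s.add x
    have hy := s.add y
    rcases le_total x y with h | h
    · have h1 := s.w_mono h
      have h2 := s.m_mono h
      rw [abs_of_nonpos (by linarith), abs_of_nonpos (by linarith)]; linarith
    · have h1 := s.w_mono h
      have h2 := s.m_mono h
      rw [abs_of_nonneg (by linarith), abs_of_nonneg (by linarith)]; linarith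
  exact this.continuous

theorem m_cont : Continuous s.m := by
  have : s.m = fun x => x - s.w x := by
    ext x; have := s.add x; linarith
  rw [this]
  exact continuous_id.sub s.w_cont

/-- the potential -/
def Phi (p : ℝ × ℝ) : ℝ := s.m (p.1 - p.2) - s.w p.1

/-- a valid gap -/
def Valid (p q : ℝ × ℝ) : Prop :=
  p.2 ∈ s.G ∧ q.2 ∈ s.G ∧ PLe p q ∧ (p.2 = q.2 ∨ s.Phi p < s.Phi q)

theorem choose_value (α β : ℝ → ℝ) (hα : Antitone α) (hβ : Antitone β) (cα : Continuous α)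
    (cβ : Continuous β) (hαβ : ∀ e, β e ≤ α e) (A B c c' : ℝ) (hAB : A < B)
    (hc : c ∈ s.G) (hc' : c' ∈ s.G) :
    ∃ e ∈ s.G, (e = c ∧ β e < B) ∨ (e = c' ∧ A < α e) ∨ (c < e ∧ e < c' ∧ A < α e ∧ β e < B) := by
  by_cases h1 : β c < B
  · exact ⟨c, hc, Or.inl ⟨rfl, h1⟩⟩
  by_cases h2 : A < α c'
  · exact ⟨c', hc', Or.inr (Or.inl ⟨rfl, h2⟩)⟩
  have hU : IsOpen {e | A < α e} := isOpen_lt continuous_const cα
  have hV : IsOpen {e | β e < B} := isOpen_lt cβ continuous_const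
  have hcover : (univ : Set ℝ) ⊆ {e | A < α e} ∪ {e | β e < B} := by
    intro e _
    by_contra hcon
    simp only [mem_union, mem_ofPred_eq, not_or, not_lt] at hcon
    have := hαβ e
    linarith [hcon.1, hcon.2]
  have hne : (univ ∩ ({e | A < α e} ∩ {e | β e < B})).Nonempty := by
    apply isPreconnected_univ _ _ hU hV hcover
    · refine ⟨c, mem_univ _, ?_⟩
      rcases hcover (mem_univ c) with h | h
      · exact h
      · exact absurd h h1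
    · refine ⟨c', mem_univ _, ?_⟩
      rcases hcover (mem_univ c') with h | h
      · exact absurd h h2
      · exact h
  rw [univ_inter] at hne
  obtain ⟨e, heG, he1, he2⟩ := s.dense.exists_mem_open (hU.inter hV) hne
  refine ⟨e, heG, Or.inr (Or.inr ⟨?_, ?_, he1, he2⟩)⟩
  · by_contra h
    have := hβ (not_lt.1 h)
    simp only [mem_ofPred_eq] at he2
    exact h1 (lt_of_le_of_lt this he2)
  · by_contra h
    have := hα (not_lt.1 h)
    simp only [mem_ofPred_eq] at he1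
    exact h2 (lt_of_lt_of_le he1 this)

theorem valid_of_phi {p q : ℝ × ℝ} (hp : p.2 ∈ s.G) (hq : q.2 ∈ s.G) (h1 : p.1 ≤ q.1)
    (h2 : p.2 < q.2) (h3 : s.Phi p < s.Phi q) : s.Valid p q := by
  refine ⟨hp, hq, Or.inr ⟨h2, ?_⟩, Or.inr h3⟩
  by_contra h
  have h4 := s.m_mono (not_lt.1 h)
  have h5 := s.w_mono h1
  unfold Phi at h3
  linarith

theorem valid_of_eq {p q : ℝ × ℝ} (hp : p.2 ∈ s.G) (h1 : p.1 ≤ q.1)
    (h2 : p.2 = q.2) : s.Valid p q :=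
  ⟨hp, h2 ▸ hp, Or.inl ⟨h2, h1⟩, Or.inl h2⟩

theorem split_dom {p q : ℝ × ℝ} (h : s.Valid p q) {a b : ℝ} (ha : p.1 ≤ a) (hab : a ≤ b)
    (hb : b ≤ q.1) (hm : s.m a = s.m b) :
    ∃ e, s.Valid p (a, e) ∧ s.Valid (a, e) (b, e) ∧ s.Valid (b, e) q := by
  obtain ⟨hp, hq, hle, hd⟩ := h
  by_cases heq : p.2 = q.2
  · exact ⟨p.2, s.valid_of_eq hp ha rfl, s.valid_of_eq hp hab rfl, s.valid_of_eq hp hb heq⟩
  have hlt : p.2 < q.2 := lt_of_le_of_ne hle.snd_le heq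
  have hd' : s.Phi p < s.Phi q := hd.resolve_left heq
  obtain ⟨e, he, hcase⟩ := s.choose_value (fun e => s.Phi (a, e)) (fun e => s.Phi (b, e))
    (fun x y hxy => by
      have := s.m_mono (show a - y ≤ a - x by linarith)
      simp only [Phi]; linarith)
    (fun x y hxy => by
      have := s.m_mono (show b - y ≤ b - x by linarith)
      simp only [Phi]; linarith)
    (by
      simp only [Phi]
      exact (s.m_cont.comp (continuous_const.sub continuous_id)).sub continuous_const)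
    (by
      simp only [Phi]
      exact (s.m_cont.comp (continuous_const.sub continuous_id)).sub continuous_const)
    (fun e => by
      simp only [Phi]
      have h1 := s.add a
      have h2 := s.add b
      have h3 := s.add (a - e)
      have h4 := s.add (b - e)
      have h5 := s.w_mono (show a - e ≤ b - e by linarith)
      linarith)
    (s.Phi p) (s.Phi q) p.2 q.2 hd' hp hq
  refine ⟨e, ?_, s.valid_of_eq he hab rfl, ?_⟩
  · rcases hcase with ⟨h1, _⟩ | ⟨h1, h2⟩ | ⟨h1, _, h2, _⟩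
    · exact s.valid_of_eq hp ha h1.symm
    · exact s.valid_of_phi hp he ha (by simpa [h1] using hlt) h2
    · exact s.valid_of_phi hp he ha h1 h2
  · rcases hcase with ⟨h1, h2⟩ | ⟨h1, _⟩ | ⟨_, h1, _, h2⟩
    · exact s.valid_of_phi he hq hb (by simpa [h1] using hlt) h2
    · exact s.valid_of_eq he hb h1
    · exact s.valid_of_phi he hq hb h1 h2

theorem split_ran {p q : ℝ × ℝ} (h : s.Valid p q) {a b : ℝ} (ha : p.1 - p.2 ≤ a) (hab : a ≤ b)
    (hb : b ≤ q.1 - q.2) (hm : s.m a = s.m b) :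
    ∃ e, s.Valid p (a + e, e) ∧ s.Valid (a + e, e) (b + e, e) ∧ s.Valid (b + e, e) q := by
  obtain ⟨hp, hq, hle, hd⟩ := h
  by_cases heq : p.2 = q.2
  · exact ⟨p.2, s.valid_of_eq hp (by simp only; linarith) rfl,
      s.valid_of_eq hp (by simp only; linarith) rfl,
      s.valid_of_eq hp (by simp only; linarith) heq⟩
  have hlt : p.2 < q.2 := lt_of_le_of_ne hle.snd_le heq
  have hd' : s.Phi p < s.Phi q := hd.resolve_left heq
  obtain ⟨e, he, hcase⟩ := s.choose_value (fun e => s.Phi (a + e, e)) (fun e => s.Phi (b + e, e))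
    (fun x y hxy => by
      have := s.w_mono (show a + x ≤ a + y by linarith)
      simp only [Phi, add_sub_cancel_right]; linarith)
    (fun x y hxy => by
      have := s.w_mono (show b + x ≤ b + y by linarith)
      simp only [Phi, add_sub_cancel_right]; linarith)
    (by
      simp only [Phi, add_sub_cancel_right]
      exact continuous_const.sub (s.w_cont.comp (continuous_const.add continuous_id)))
    (by
      simp only [Phi, add_sub_cancel_right]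
      exact continuous_const.sub (s.w_cont.comp (continuous_const.add continuous_id)))
    (fun e => by
      simp only [Phi, add_sub_cancel_right]
      have h5 := s.w_mono (show a + e ≤ b + e by linarith)
      linarith)
    (s.Phi p) (s.Phi q) p.2 q.2 hd' hp hq
  refine ⟨e, ?_, s.valid_of_eq he (by simp only; linarith) rfl, ?_⟩
  · rcases hcase with ⟨h1, _⟩ | ⟨h1, h2⟩ | ⟨h1, _, h2, _⟩
    · exact s.valid_of_eq hp (by simp only; linarith) h1.symm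
    · exact s.valid_of_phi hp he (by simp only; linarith) (by simpa [h1] using hlt) h2
    · exact s.valid_of_phi hp he (by simp only; linarith) h1 h2
  · rcases hcase with ⟨h1, h2⟩ | ⟨h1, _⟩ | ⟨_, h1, _, h2⟩
    · exact s.valid_of_phi he hq (by simp only; linarith) (by simpa [h1] using hlt) h2
    · exact s.valid_of_eq he (by simp only; linarith) h1
    · exact s.valid_of_phi he hq (by simp only; linarith) h1 h2

/-- a state of the construction: a chain of valid gaps covering the domain and the range -/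
structure IsState (Γ : Set ((ℝ × ℝ) × (ℝ × ℝ))) : Prop where
  valid : ∀ γ ∈ Γ, s.Valid γ.1 γ.2
  chain : ∀ γ ∈ Γ, ∀ δ ∈ Γ, γ = δ ∨ PLe γ.2 δ.1 ∨ PLe δ.2 γ.1
  dom : ∀ x, ∃ γ ∈ Γ, γ.1.1 ≤ x ∧ x ≤ γ.2.1
  ran : ∀ y, ∃ γ ∈ Γ, γ.1.1 - γ.1.2 ≤ y ∧ y ≤ γ.2.1 - γ.2.2

end Setup

/-- the pairs that a state has decided -/
def Decided (Γ : Set ((ℝ × ℝ) × (ℝ × ℝ))) : Set (ℝ × ℝ) :=
  {z | ∃ γ ∈ Γ, γ.1.2 = z.2 ∧ γ.2.2 = z.2 ∧ γ.1.1 ≤ z.1 ∧ z.1 ≤ γ.2.1}

namespace Setup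

variable (s : Setup)

theorem refine_state {Γ : Set ((ℝ × ℝ) × (ℝ × ℝ))} (h : s.IsState Γ)
    (r r' : ((ℝ × ℝ) × (ℝ × ℝ)) → ℝ × ℝ)
    (hr : ∀ γ ∈ Γ, s.Valid γ.1 (r γ) ∧ s.Valid (r γ) (r' γ) ∧ s.Valid (r' γ) γ.2) :
    ∃ Γ', s.IsState Γ' ∧ Decided Γ ⊆ Decided Γ' ∧ ∀ γ ∈ Γ, (r γ, r' γ) ∈ Γ' := by
  refine ⟨{δ | ∃ γ ∈ Γ, δ = (γ.1, r γ) ∨ δ = (r γ, r' γ) ∨ δ = (r' γ, γ.2)}, ⟨?_, ?_, ?_, ?_⟩,
    ?_, ?_⟩
  · rintro δ ⟨γ, hγ, rfl | rfl | rfl⟩
    · exact (hr γ hγ).1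
    · exact (hr γ hγ).2.1
    · exact (hr γ hγ).2.2
  · have key : ∀ γ ∈ Γ, ∀ δ : (ℝ × ℝ) × (ℝ × ℝ),
        (δ = (γ.1, r γ) ∨ δ = (r γ, r' γ) ∨ δ = (r' γ, γ.2)) → PLe γ.1 δ.1 ∧ PLe δ.2 γ.2 := by
      intro γ hγ δ hδ
      obtain ⟨h1, h2, h3⟩ := hr γ hγ
      rcases hδ with rfl | rfl | rfl
      · exact ⟨PLe.refl _, h2.2.2.1.trans h3.2.2.1⟩
      · exact ⟨h1.2.2.1, h3.2.2.1⟩
      · exact ⟨h1.2.2.1.trans h2.2.2.1, PLe.refl _⟩
    rintro δ ⟨γ, hγ, hδ⟩ δ' ⟨γ', hγ', hδ'⟩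
    rcases h.chain γ hγ γ' hγ' with rfl | hle | hle
    · obtain ⟨h1, h2, h3⟩ := hr γ hγ
      rcases hδ with rfl | rfl | rfl <;> rcases hδ' with rfl | rfl | rfl
      · left; rfl
      · right; left; exact PLe.refl _
      · right; left; exact h2.2.2.1
      · right; right; exact PLe.refl _
      · left; rfl
      · right; left; exact PLe.refl _
      · right; right; exact h2.2.2.1
      · right; right; exact PLe.refl _
      · left; rfl
    · right; left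
      exact ((key γ hγ δ hδ).2.trans hle).trans (key γ' hγ' δ' hδ').1
    · right; right
      exact ((key γ' hγ' δ' hδ').2.trans hle).trans (key γ hγ δ hδ).1
  · intro x
    obtain ⟨γ, hγ, h1, h2⟩ := h.dom x
    rcases le_total x (r γ).1 with h3 | h3
    · exact ⟨_, ⟨γ, hγ, Or.inl rfl⟩, h1, h3⟩
    rcases le_total x (r' γ).1 with h4 | h4
    · exact ⟨_, ⟨γ, hγ, Or.inr (Or.inl rfl)⟩, h3, h4⟩
    · exact ⟨_, ⟨γ, hγ, Or.inr (Or.inr rfl)⟩, h4, h2⟩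
  · intro y
    obtain ⟨γ, hγ, h1, h2⟩ := h.ran y
    rcases le_total y ((r γ).1 - (r γ).2) with h3 | h3
    · exact ⟨_, ⟨γ, hγ, Or.inl rfl⟩, h1, h3⟩
    rcases le_total y ((r' γ).1 - (r' γ).2) with h4 | h4
    · exact ⟨_, ⟨γ, hγ, Or.inr (Or.inl rfl)⟩, h3, h4⟩
    · exact ⟨_, ⟨γ, hγ, Or.inr (Or.inr rfl)⟩, h4, h2⟩
  · rintro z ⟨γ, hγ, e1, e2, h1, h2⟩
    obtain ⟨v1, v2, v3⟩ := hr γ hγ
    have a1 := v1.2.2.1.snd_le
    have a2 := v2.2.2.1.snd_le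
    have a3 := v3.2.2.1.snd_le
    have b1 : (r γ).2 = z.2 := by linarith
    have b2 : (r' γ).2 = z.2 := by linarith
    rcases le_total z.1 (r γ).1 with h3 | h3
    · exact ⟨_, ⟨γ, hγ, Or.inl rfl⟩, e1, b1, h1, h3⟩
    rcases le_total z.1 (r' γ).1 with h4 | h4
    · exact ⟨_, ⟨γ, hγ, Or.inr (Or.inl rfl)⟩, b1, b2, h3, h4⟩
    · exact ⟨_, ⟨γ, hγ, Or.inr (Or.inr rfl)⟩, b2, e2, h4, h2⟩
  · intro γ hγ
    exact ⟨γ, hγ, Or.inr (Or.inl rfl)⟩

theorem m_clamp {u v a b : ℝ} (hm : s.m u = s.m v) :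
    s.m (max a (min u b)) = s.m (max a (min v b)) := by
  rw [s.m_mono.map_max, s.m_mono.map_max, s.m_mono.map_min, s.m_mono.map_min, hm]

theorem step_dom {Γ : Set ((ℝ × ℝ) × (ℝ × ℝ))} (h : s.IsState Γ) {u v : ℝ} (huv : u ≤ v)
    (hm : s.m u = s.m v) :
    ∃ Γ', s.IsState Γ' ∧ Decided Γ ⊆ Decided Γ' ∧
      ∀ x, u ≤ x → x ≤ v → ∃ c, (x, c) ∈ Decided Γ' := by
  have key : ∀ γ ∈ Γ, ∃ e, s.Valid γ.1 (max γ.1.1 (min u γ.2.1), e) ∧
      s.Valid (max γ.1.1 (min u γ.2.1), e) (max γ.1.1 (min v γ.2.1), e) ∧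
      s.Valid (max γ.1.1 (min v γ.2.1), e) γ.2 := by
    intro γ hγ
    have hv := h.valid γ hγ
    have hab := hv.2.2.1.fst_le
    exact s.split_dom hv (le_max_left _ _) (max_le_max le_rfl (min_le_min huv le_rfl))
      (max_le hab (min_le_right _ _)) (s.m_clamp hm)
  choose! e he using key
  obtain ⟨Γ', h1, h2, h3⟩ := s.refine_state h (fun γ => (max γ.1.1 (min u γ.2.1), e γ))
    (fun γ => (max γ.1.1 (min v γ.2.1), e γ)) he
  refine ⟨Γ', h1, h2, fun x hux hxv => ?_⟩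
  obtain ⟨γ, hγ, h4, h5⟩ := h.dom x
  refine ⟨e γ, _, h3 γ hγ, rfl, rfl, ?_, ?_⟩
  · exact max_le h4 ((min_le_left _ _).trans hux)
  · exact le_max_of_le_right (le_min hxv h5)

theorem step_ran {Γ : Set ((ℝ × ℝ) × (ℝ × ℝ))} (h : s.IsState Γ) {u v : ℝ} (huv : u ≤ v)
    (hm : s.m u = s.m v) :
    ∃ Γ', s.IsState Γ' ∧ Decided Γ ⊆ Decided Γ' ∧
      ∀ y, u ≤ y → y ≤ v → ∃ c, (y + c, c) ∈ Decided Γ' := by
  have key : ∀ γ ∈ Γ, ∃ e, s.Valid γ.1 (max (γ.1.1 - γ.1.2) (min u (γ.2.1 - γ.2.2)) + e, e) ∧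
      s.Valid (max (γ.1.1 - γ.1.2) (min u (γ.2.1 - γ.2.2)) + e, e)
        (max (γ.1.1 - γ.1.2) (min v (γ.2.1 - γ.2.2)) + e, e) ∧
      s.Valid (max (γ.1.1 - γ.1.2) (min v (γ.2.1 - γ.2.2)) + e, e) γ.2 := by
    intro γ hγ
    have hv := h.valid γ hγ
    have hab := hv.2.2.1.diff_le
    exact s.split_ran hv (le_max_left _ _) (max_le_max le_rfl (min_le_min huv le_rfl))
      (max_le hab (min_le_right _ _)) (s.m_clamp hm)
  choose! e he using key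
  obtain ⟨Γ', h1, h2, h3⟩ := s.refine_state h
    (fun γ => (max (γ.1.1 - γ.1.2) (min u (γ.2.1 - γ.2.2)) + e γ, e γ))
    (fun γ => (max (γ.1.1 - γ.1.2) (min v (γ.2.1 - γ.2.2)) + e γ, e γ)) he
  refine ⟨Γ', h1, h2, fun y huy hyv => ?_⟩
  obtain ⟨γ, hγ, h4, h5⟩ := h.ran y
  refine ⟨e γ, _, h3 γ hγ, rfl, rfl, ?_, ?_⟩
  · have : max (γ.1.1 - γ.1.2) (min u (γ.2.1 - γ.2.2)) ≤ y :=
      max_le h4 ((min_le_left _ _).trans huy)
    simp only; linarith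
  · have : y ≤ max (γ.1.1 - γ.1.2) (min v (γ.2.1 - γ.2.2)) :=
      le_max_of_le_right (le_min hyv h5)
    simp only; linarith

theorem step_both {Γ : Set ((ℝ × ℝ) × (ℝ × ℝ))} (h : s.IsState Γ) (u v : ℝ) :
    ∃ Γ', s.IsState Γ' ∧ Decided Γ ⊆ Decided Γ' ∧ (s.m u = s.m v →
      ∀ x, u ≤ x → x ≤ v → (∃ c, (x, c) ∈ Decided Γ') ∧ ∃ c, (x + c, c) ∈ Decided Γ') := by
  by_cases hc : u ≤ v ∧ s.m u = s.m v
  · obtain ⟨Γ1, h1, h2, h3⟩ := s.step_dom h hc.1 hc.2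
    obtain ⟨Γ2, h4, h5, h6⟩ := s.step_ran h1 hc.1 hc.2
    refine ⟨Γ2, h4, h2.trans h5, fun _ x hux hxv => ⟨?_, h6 x hux hxv⟩⟩
    obtain ⟨c, hc⟩ := h3 x hux hxv
    exact ⟨c, h5 hc⟩
  · exact ⟨Γ, h, Subset.rfl, fun hm x hux hxv => absurd ⟨hux.trans hxv, hm⟩ hc⟩

theorem decided_rel {Γ : Set ((ℝ × ℝ) × (ℝ × ℝ))} (h : s.IsState Γ) {z z' : ℝ × ℝ}
    (hz : z ∈ Decided Γ) (hz' : z' ∈ Decided Γ) : PLe z z' ∨ PLe z' z := by
  obtain ⟨γ, hγ, e1, e2, h1, h2⟩ := hz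
  obtain ⟨γ', hγ', e1', e2', h1', h2'⟩ := hz'
  have a1 : PLe γ.1 z := Or.inl ⟨e1, h1⟩
  have a2 : PLe z γ.2 := Or.inl ⟨e2.symm, h2⟩
  have a1' : PLe γ'.1 z' := Or.inl ⟨e1', h1'⟩
  have a2' : PLe z' γ'.2 := Or.inl ⟨e2'.symm, h2'⟩
  rcases h.chain γ hγ γ' hγ' with rfl | hle | hle
  · rcases le_total z.1 z'.1 with h3 | h3
    · left; left; exact ⟨e1.symm.trans e1', h3⟩
    · right; left; exact ⟨e1'.symm.trans e1, h3⟩
  · left; exact (a2.trans hle).trans a1'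
  · right; exact (a2'.trans hle).trans a1

theorem decided_mem {Γ : Set ((ℝ × ℝ) × (ℝ × ℝ))} (h : s.IsState Γ) {z : ℝ × ℝ}
    (hz : z ∈ Decided Γ) : z.2 ∈ s.G := by
  obtain ⟨γ, hγ, e1, _, _, _⟩ := hz
  rw [← e1]
  exact (h.valid γ hγ).1

theorem exists_limit {Γ : Set ((ℝ × ℝ) × (ℝ × ℝ))} (h : s.IsState Γ) :
    ∃ R : Set (ℝ × ℝ), Decided Γ ⊆ R ∧ (∀ z ∈ R, z.2 ∈ s.G) ∧
      (∀ z ∈ R, ∀ z' ∈ R, PLe z z' ∨ PLe z' z) ∧
      ∀ u v : ℚ, s.m u = s.m v → ∀ x : ℝ, u ≤ x → x ≤ v →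
        (∃ c, (x, c) ∈ R) ∧ ∃ c, (x + c, c) ∈ R := by
  classical
  obtain ⟨ε, hε⟩ := exists_surjective_nat (ℚ × ℚ)
  choose! F hF using fun (Γ : Set ((ℝ × ℝ) × (ℝ × ℝ))) (h : s.IsState Γ) (u v : ℝ) =>
    s.step_both h u v
  let T : ℕ → Set ((ℝ × ℝ) × (ℝ × ℝ)) :=
    fun n => Nat.rec Γ (fun n Δ => F Δ (ε n).1 (ε n).2) n
  have hT1 : ∀ n, T (n + 1) = F (T n) (ε n).1 (ε n).2 := fun n => rfl
  have hT : ∀ n, s.IsState (T n) := by
    intro n
    induction n with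
    | zero => exact h
    | succ n ih => rw [hT1]; exact (hF _ ih _ _).1
  have hmono : Monotone (fun n => Decided (T n)) := by
    apply monotone_nat_of_le_succ
    intro n
    rw [hT1]
    exact (hF _ (hT n) _ _).2.1
  refine ⟨⋃ n, Decided (T n), subset_iUnion (fun n => Decided (T n)) 0, ?_, ?_, ?_⟩
  · intro z hz
    obtain ⟨n, hn⟩ := mem_iUnion.1 hz
    exact s.decided_mem (hT n) hn
  · intro z hz z' hz'
    obtain ⟨n, hn⟩ := mem_iUnion.1 hz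
    obtain ⟨n', hn'⟩ := mem_iUnion.1 hz'
    exact s.decided_rel (hT (max n n')) (hmono (le_max_left _ _) hn)
      (hmono (le_max_right _ _) hn')
  · intro u v hm x hux hxv
    obtain ⟨n, hn⟩ := hε (u, v)
    have := (hF _ (hT n) (ε n).1 (ε n).2).2.2 (by rw [hn]; exact hm) x
      (by rw [hn]; exact hux) (by rw [hn]; exact hxv)
    rw [← hT1] at this
    obtain ⟨⟨c, hc⟩, ⟨c', hc'⟩⟩ := this
    exact ⟨⟨c, mem_iUnion.2 ⟨n + 1, hc⟩⟩, ⟨c', mem_iUnion.2 ⟨n + 1, hc'⟩⟩⟩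

theorem initial_state {g : ℝ} (hg : g ∈ s.G) (h0 : 0 < g) (h1 : g < 1)
    (hΦ : s.Phi (0, 0) < s.Phi (1, g)) :
    ∃ Γ, s.IsState Γ ∧ (∀ x < 0, (x, (0 : ℝ)) ∈ Decided Γ) ∧ ∀ x > 1, (x, g) ∈ Decided Γ := by
  refine ⟨{γ | (∃ x < (0 : ℝ), γ = ((x, 0), (x, 0))) ∨ γ = ((0, 0), (1, g)) ∨
    ∃ x > (1 : ℝ), γ = ((x, g), (x, g))}, ⟨?_, ?_, ?_, ?_⟩, ?_, ?_⟩
  · rintro γ (⟨x, hx, rfl⟩ | rfl | ⟨x, hx, rfl⟩)
    · exact s.valid_of_eq s.G.zero_mem le_rfl rfl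
    · exact s.valid_of_phi s.G.zero_mem hg zero_le_one h0 hΦ
    · exact s.valid_of_eq hg le_rfl rfl
  · rintro γ (⟨x, hx, rfl⟩ | rfl | ⟨x, hx, rfl⟩) δ (⟨y, hy, rfl⟩ | rfl | ⟨y, hy, rfl⟩)
    · rcases le_total x y with h | h
      · right; left; left; exact ⟨rfl, h⟩
      · right; right; left; exact ⟨rfl, h⟩
    · right; left; left; exact ⟨rfl, hx.le⟩
    · right; left; right; constructor <;> simp only <;> linarith
    · right; right; left; exact ⟨rfl, hy.le⟩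
    · left; rfl
    · right; left; left; exact ⟨rfl, hy.le⟩
    · right; right; right; constructor <;> simp only <;> linarith
    · right; right; left; exact ⟨rfl, hx.le⟩
    · rcases le_total x y with h | h
      · right; left; left; exact ⟨rfl, h⟩
      · right; right; left; exact ⟨rfl, h⟩
  · intro x
    rcases lt_or_ge x 0 with h | h
    · exact ⟨_, Or.inl ⟨x, h, rfl⟩, le_rfl, le_rfl⟩
    rcases le_or_gt x 1 with h' | h'
    · exact ⟨_, Or.inr (Or.inl rfl), h, h'⟩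
    · exact ⟨_, Or.inr (Or.inr ⟨x, h', rfl⟩), le_rfl, le_rfl⟩
  · intro y
    rcases lt_or_ge y 0 with h | h
    · exact ⟨_, Or.inl ⟨y, h, rfl⟩, by simp, by simp⟩
    rcases le_or_gt y (1 - g) with h' | h'
    · exact ⟨_, Or.inr (Or.inl rfl), by simpa using h, h'⟩
    · exact ⟨_, Or.inr (Or.inr ⟨y + g, by linarith, rfl⟩), by simp, by simp⟩
  · intro x hx
    exact ⟨_, Or.inl ⟨x, hx, rfl⟩, rfl, rfl, le_rfl, le_rfl⟩
  · intro x hx
    exact ⟨_, Or.inr (Or.inr ⟨x, hx, rfl⟩), rfl, rfl, le_rfl, le_rfl⟩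

theorem exists_map {g : ℝ} (hg : g ∈ s.G) (h0 : 0 < g) (h1 : g < 1)
    (hΦ : s.Phi (0, 0) < s.Phi (1, g))
    (hloc : ∀ x ∈ s.G, ∃ u v : ℚ, (u : ℝ) ≤ x ∧ x ≤ v ∧ s.m u = s.m v) :
    ∃ f : s.G → s.G, Function.Bijective f ∧ (∀ x y, dist (f x) (f y) ≤ dist x y) ∧
      ∃ x y, dist (f x) (f y) ≠ dist x y := by
  obtain ⟨Γ, hΓ, hl, hr⟩ := s.initial_state hg h0 h1 hΦ
  obtain ⟨R, hR0, hRG, hRle, hRcov⟩ := s.exists_limit hΓ
  have hdom : ∀ x : s.G, ∃ c, ((x : ℝ), c) ∈ R := by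
    intro x
    obtain ⟨u, v, a, b, c⟩ := hloc x x.2
    exact (hRcov u v c x a b).1
  choose D hD using hdom
  have huniq : ∀ x c c' : ℝ, (x, c) ∈ R → (x, c') ∈ R → c = c' := by
    intro x c c' a b
    rcases hRle _ a _ b with (⟨h, _⟩ | ⟨h, h'⟩) | (⟨h, _⟩ | ⟨h, h'⟩)
    · exact h
    · simp only at h h'; linarith
    · exact h.symm
    · simp only at h h'; linarith
  refine ⟨fun x => ⟨x - D x, s.G.sub_mem x.2 (hRG _ (hD x))⟩, ⟨?_, ?_⟩, ?_, ?_⟩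
  · intro x y hxy
    have hxy' : (x : ℝ) - D x = y - D y := congrArg Subtype.val hxy
    apply Subtype.ext
    rcases hRle _ (hD x) _ (hD y) with (⟨h, _⟩ | ⟨h, h'⟩) | (⟨h, _⟩ | ⟨h, h'⟩) <;>
      simp only at * <;> linarith
  · intro y
    obtain ⟨u, v, a, b, c⟩ := hloc y y.2
    obtain ⟨e, he⟩ := (hRcov u v c y a b).2
    have heG : e ∈ s.G := hRG _ he
    refine ⟨⟨y + e, s.G.add_mem y.2 heG⟩, Subtype.ext ?_⟩
    have := huniq _ _ _ (hD ⟨y + e, s.G.add_mem y.2 heG⟩) he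
    simp only [this]
    ring
  · intro x y
    simp only [Subtype.dist_eq, Real.dist_eq]
    rcases hRle _ (hD x) _ (hD y) with h | h
    · have a1 := h.fst_le
      have a2 := h.snd_le
      have a3 := h.diff_le
      simp only at a1 a2 a3
      rw [abs_of_nonpos (by linarith), abs_of_nonpos (by linarith)]; linarith
    · have a1 := h.fst_le
      have a2 := h.snd_le
      have a3 := h.diff_le
      simp only at a1 a2 a3
      rw [abs_of_nonneg (by linarith), abs_of_nonneg (by linarith)]; linarith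
  · obtain ⟨x, hxG, hx⟩ := s.dense.exists_mem_open (isOpen_Iio (a := (0 : ℝ))) nonempty_Iio
    obtain ⟨y, hyG, hy⟩ := s.dense.exists_mem_open (isOpen_Ioi (a := (1 : ℝ))) nonempty_Ioi
    refine ⟨⟨x, hxG⟩, ⟨y, hyG⟩, ?_⟩
    have e1 := huniq _ _ _ (hD ⟨x, hxG⟩) (hR0 (hl x hx))
    have e2 := huniq _ _ _ (hD ⟨y, hyG⟩) (hR0 (hr y hy))
    simp only [Subtype.dist_eq, Real.dist_eq, e1, e2]
    have hx' : x < 0 := hx
    have hy' : 1 < y := hy
    rw [abs_of_nonpos (by linarith), abs_of_nonpos (by linarith)]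
    intro h
    linarith

end Setup

end Pool.Agent.Lib.MP_4fc6a2_gt
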