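import Pool.Agent.Lib.MP_4fc6a2_gt.Null
import Pool.Agent.Lib.MP_4fc6a2_gt.Forth

/-!
A dense null subgroup of the line is not plastic.
-/

set_option autoImplicit false

open MeasureTheory Set Filter Topology

namespace Pool.Agent.Lib.MP_4fc6a2_gt

theorem exists_of_null (G : AddSubgroup ℝ) (hd : Dense (G : Set ℝ))
    (h0 : volume (G : Set ℝ) = 0) :
    ∃ f : G → G, Function.Bijective f ∧ (∀ x y, dist (f x) (f y) ≤ dist x y) ∧
      ∃ x y, dist (f x) (f y) ≠ dist x y := by
  obtain ⟨W, hGW, hW, hWm⟩ := Set.exists_isOpen_lt_of_lt (G : Set ℝ) (ENNReal.ofReal (1 / 4))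
    (μ := volume) (by rw [h0]; simp)
  have hWfin : volume W ≠ ⊤ := (hWm.trans ENNReal.ofReal_lt_top).ne
  have hWr : volume.real W < 1 / 4 := by
    rw [measureReal_def]
    exact (ENNReal.lt_ofReal_iff_toReal_lt hWfin).1 hWm
  let w : ℝ → ℝ := fun x => volume.real (W ∩ Iic x)
  have hw : ∀ x y, x ≤ y → w y = w x + volume.real (W ∩ Ioc x y) := by
    intro x y hxy
    have e : W ∩ Iic y = (W ∩ Iic x) ∪ (W ∩ Ioc x y) := by
      rw [← inter_union_distrib_left, Iic_union_Ioc_eq_Iic hxy]
    simp only [w]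
    rw [e]
    exact measureReal_union
      ((Iic_disjoint_Ioc le_rfl).mono inter_subset_right inter_subset_right)
      (hW.measurableSet.inter measurableSet_Ioc)
      (ne_top_of_le_ne_top hWfin (measure_mono inter_subset_left))
      (ne_top_of_le_ne_top hWfin (measure_mono inter_subset_left))
  have hle : ∀ x y, x ≤ y → volume.real (W ∩ Ioc x y) ≤ y - x := by
    intro x y hxy
    have : volume.real (W ∩ Ioc x y) ≤ volume.real (Ioc x y) :=
      measureReal_mono inter_subset_right (by simp)
    rwa [Real.volume_real_Ioc_of_le hxy] at this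
  have hle2 : ∀ x y, volume.real (W ∩ Ioc x y) < 1 / 4 := by
    intro x y
    exact lt_of_le_of_lt (measureReal_mono inter_subset_left hWfin) hWr
  let s : Setup :=
    { G := G
      dense := hd
      w := w
      m := fun x => x - w x
      w_mono := by
        intro x y hxy
        have := hw x y hxy
        have h2 : 0 ≤ volume.real (W ∩ Ioc x y) := measureReal_nonneg
        linarith
      m_mono := by
        intro x y hxy
        have := hw x y hxy
        have h2 := hle x y hxy
        simp only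
        linarith
      add := by intro x; ring }
  obtain ⟨g, hgG, hg0, hg1⟩ := hd.exists_mem_open (isOpen_Ioo (a := (0 : ℝ)) (b := 1 / 2))
    (nonempty_Ioo.2 (by norm_num))
  refine s.exists_map (g := g) hgG hg0 (by linarith) ?_ ?_
  · simp only [Setup.Phi, s, sub_zero]
    have a1 := hw 0 1 zero_le_one
    have a2 := hw 0 (1 - g) (by linarith)
    have a3 := hle2 0 1
    have a4 := hle2 0 (1 - g)
    linarith
  · intro x hx
    obtain ⟨ε, hε, hball⟩ := Metric.isOpen_iff.1 hW x (hGW hx)
    obtain ⟨u, hu1, hu2⟩ := exists_rat_btwn (show x - ε < x by linarith)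
    obtain ⟨v, hv1, hv2⟩ := exists_rat_btwn (show x < x + ε by linarith)
    refine ⟨u, v, hu2.le, hv1.le, ?_⟩
    have huv : (u : ℝ) ≤ v := (hu2.trans hv1).le
    have hsub : Ioc (u : ℝ) v ⊆ W := by
      intro z hz
      apply hball
      rw [Real.ball_eq_Ioo]
      exact ⟨by linarith [hz.1], by linarith [hz.2]⟩
    have a1 := hw u v huv
    rw [inter_eq_right.2 hsub, Real.volume_real_Ioc_of_le huv] at a1
    simp only [s]
    linarith

theorem exists_of_top :
    ∃ f : (⊤ : AddSubgroup ℝ) → (⊤ : AddSubgroup ℝ), Function.Bijective f ∧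
      (∀ x y, dist (f x) (f y) ≤ dist x y) ∧ ∃ x y, dist (f x) (f y) ≠ dist x y := by
  refine ⟨fun x => ⟨x / 2, AddSubgroup.mem_top _⟩, ⟨?_, ?_⟩, ?_, ?_⟩
  · intro x y h
    have h' : (x : ℝ) / 2 = y / 2 := congrArg Subtype.val h
    apply Subtype.ext
    linarith
  · intro y
    exact ⟨⟨2 * y, AddSubgroup.mem_top _⟩, Subtype.ext (by simp)⟩
  · intro x y
    simp only [Subtype.dist_eq, Real.dist_eq]
    rw [← sub_div, abs_div, abs_two]
    have := abs_nonneg ((x : ℝ) - y)
    linarith
  · refine ⟨⟨0, AddSubgroup.mem_top _⟩, ⟨2, AddSubgroup.mem_top _⟩, ?_⟩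
    simp only [Subtype.dist_eq, Real.dist_eq]
    norm_num

theorem exists_of_analytic (G : AddSubgroup ℝ) (hd : Dense (G : Set ℝ))
    (hA : AnalyticSet (G : Set ℝ)) :
    ∃ f : G → G, Function.Bijective f ∧ (∀ x y, dist (f x) (f y) ≤ dist x y) ∧
      ∃ x y, dist (f x) (f y) ≠ dist x y := by
  by_cases hG : G = ⊤
  · subst hG
    exact exists_of_top
  · exact exists_of_null G hd (null_of_analytic G hA hG)

end Pool.Agent.Lib.MP_4fc6a2_gt
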