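import Mathlib

/-!
An analytic subset of the line of positive outer measure contains a compact set of positive
measure; hence a proper analytic subgroup of the line is Lebesgue null.
-/

set_option autoImplicit false

open MeasureTheory Set Filter Topology

namespace Pool.Agent.Lib.MP_4fc6a2_gt

theorem step_capacity (μ : Measure ℝ) (f : (ℕ → ℕ) → ℝ) (r : ENNReal) (S : Set (ℕ → ℕ)) (k : ℕ)
    (hS : r < μ (f '' S)) : ∃ j : ℕ, r < μ (f '' (S ∩ {x | x k ≤ j})) := by
  have hmono : Monotone (fun j : ℕ => f '' (S ∩ {x | x k ≤ j})) := by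
    intro i j hij
    apply image_mono
    apply inter_subset_inter_right
    intro x hx
    exact le_trans hx hij
  have hU : f '' S = ⋃ j : ℕ, f '' (S ∩ {x | x k ≤ j}) := by
    rw [← image_iUnion, ← inter_iUnion]
    congr 1
    ext x
    simp only [mem_inter_iff, mem_iUnion, mem_ofPred_eq]
    exact ⟨fun h => ⟨h, x k, le_rfl⟩, fun h => h.1⟩
  rw [hU, hmono.measure_iUnion] at hS
  exact lt_iSup_iff.1 hS

theorem exists_bounds (μ : Measure ℝ) (f : (ℕ → ℕ) → ℝ) (r : ENNReal)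
    (h : r < μ (range f)) :
    ∃ N : ℕ → ℕ, ∀ k, r < μ (f '' {x | ∀ i < k, x i ≤ N i}) := by
  classical
  choose! J hJ using step_capacity μ f r
  let S : ℕ → Set (ℕ → ℕ) := fun k => Nat.rec univ (fun k T => T ∩ {x | x k ≤ J T k}) k
  have hS0 : S 0 = univ := rfl
  have hS1 : ∀ k, S (k + 1) = S k ∩ {x | x k ≤ J (S k) k} := fun k => rfl
  have hr : ∀ k, r < μ (f '' S k) := by
    intro k
    induction k with
    | zero => rw [hS0, image_univ]; exact h
    | succ k ih => rw [hS1]; exact hJ _ _ ih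
  refine ⟨fun k => J (S k) k, fun k => ?_⟩
  have : S k = {x | ∀ i < k, x i ≤ J (S i) i} := by
    induction k with
    | zero => rw [hS0]; ext x; simp
    | succ k ih =>
      rw [hS1, ih]
      ext x
      simp only [mem_inter_iff, mem_ofPred_eq]
      constructor
      · rintro ⟨h1, h2⟩ i hi
        rcases Nat.lt_succ_iff_lt_or_eq.1 hi with h3 | h3
        · exact h1 i h3
        · subst h3
          rw [ih]; exact h2
      · intro h1
        refine ⟨fun i hi => h1 i (Nat.lt_succ_of_lt hi), ?_⟩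
        have := h1 k (Nat.lt_succ_self k)
        rw [ih] at this
        exact this
  rw [← this]
  exact hr k

theorem iInter_closure_subset (f : (ℕ → ℕ) → ℝ) (hf : Continuous f) (N : ℕ → ℕ) :
    (⋂ k : ℕ, closure (f '' {x | ∀ i < k, x i ≤ N i})) ⊆ f '' {x | ∀ i, x i ≤ N i} := by
  intro y hy
  have hK : IsCompact {x : ℕ → ℕ | ∀ i, x i ≤ N i} := by
    have : {x : ℕ → ℕ | ∀ i, x i ≤ N i} = Set.pi univ (fun i => Set.Iic (N i)) := by
      ext x; simp [Pi.le_def]
    rw [this]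
    exact isCompact_univ_pi (fun i => (Set.finite_Iic (N i)).isCompact)
  have h1 : ∀ k : ℕ, ∃ x : ℕ → ℕ, (∀ i < k, x i ≤ N i) ∧ dist y (f x) < 1 / ((k : ℝ) + 1) := by
    intro k
    have hk := mem_iInter.1 hy k
    rcases Metric.mem_closure_iff.1 hk (1 / ((k : ℝ) + 1)) Nat.one_div_pos_of_nat with
      ⟨b, ⟨x, hx, rfl⟩, hb⟩
    exact ⟨x, hx, hb⟩
  choose x hx hd using h1
  let x' : ℕ → (ℕ → ℕ) := fun k i => min (x k i) (N i)
  have hx' : ∀ k, x' k ∈ {x : ℕ → ℕ | ∀ i, x i ≤ N i} := fun k i => min_le_right _ _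
  obtain ⟨a, ha, φ, hφ, hlim⟩ := hK.tendsto_subseq hx'
  have hlim2 : Tendsto (x ∘ φ) atTop (𝓝 a) := by
    rw [tendsto_pi_nhds] at hlim ⊢
    intro i
    refine (hlim i).congr' ?_
    filter_upwards [hφ.tendsto_atTop.eventually (eventually_gt_atTop i)] with k hk
    simp only [Function.comp, x']
    exact min_eq_left (hx _ i hk)
  have hlim3 : Tendsto (fun k => f (x (φ k))) atTop (𝓝 (f a)) := (hf.tendsto a).comp hlim2
  have hlim4 : Tendsto (fun k => f (x k)) atTop (𝓝 y) := by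
    rw [tendsto_iff_dist_tendsto_zero]
    refine squeeze_zero (fun k => dist_nonneg) (fun k => ?_) tendsto_one_div_add_atTop_nhds_zero_nat
    rw [dist_comm]; exact (hd k).le
  have hlim5 : Tendsto (fun k => f (x (φ k))) atTop (𝓝 y) := hlim4.comp hφ.tendsto_atTop
  exact ⟨a, ha, tendsto_nhds_unique hlim3 hlim5⟩

theorem exists_closed_pos (μ : Measure ℝ) [IsFiniteMeasure μ] (A : Set ℝ) (hA : AnalyticSet A)
    (h : μ A ≠ 0) : ∃ K ⊆ A, IsClosed K ∧ μ K ≠ 0 := by
  rw [AnalyticSet] at hA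
  rcases hA with rfl | ⟨f, hf, rfl⟩
  · simp at h
  obtain ⟨r, hr0, hr⟩ := exists_between (pos_iff_ne_zero.2 h)
  obtain ⟨N, hN⟩ := exists_bounds μ f r hr
  refine ⟨⋂ k : ℕ, closure (f '' {x | ∀ i < k, x i ≤ N i}),
    (iInter_closure_subset f hf N).trans (image_subset_range _ _),
    isClosed_iInter (fun k => isClosed_closure), ?_⟩
  have hanti : Antitone (fun k : ℕ => closure (f '' {x | ∀ i < k, x i ≤ N i})) := by
    intro i j hij
    apply closure_mono
    apply image_mono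
    intro x hx l hl
    exact hx l (lt_of_lt_of_le hl hij)
  rw [hanti.measure_iInter (fun k => isClosed_closure.measurableSet.nullMeasurableSet)
    ⟨0, measure_ne_top _ _⟩]
  have : r ≤ ⨅ k : ℕ, μ (closure (f '' {x | ∀ i < k, x i ≤ N i})) :=
    le_iInf (fun k => (hN k).le.trans (measure_mono subset_closure))
  exact (lt_of_lt_of_le hr0 this).ne'

open Pointwise in
theorem null_of_analytic (G : AddSubgroup ℝ) (hA : AnalyticSet (G : Set ℝ)) (hG : G ≠ ⊤) :
    volume (G : Set ℝ) = 0 := by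
  by_contra h
  have h' : (volume : Measure ℝ).toFinite (G : Set ℝ) ≠ 0 := by
    rwa [Ne, toFinite_apply_eq_zero_iff]
  obtain ⟨K, hKG, hK, hK0⟩ := exists_closed_pos _ _ hA h'
  rw [Ne, toFinite_apply_eq_zero_iff] at hK0
  have hn : K - K ∈ 𝓝 (0 : ℝ) :=
    Measure.sub_mem_nhds_zero_of_addHaar_pos volume K hK.measurableSet (pos_iff_ne_zero.2 hK0)
  have hsub : K - K ⊆ (G : Set ℝ) := by
    rintro _ ⟨a, ha, b, hb, rfl⟩
    exact G.sub_mem (hKG ha) (hKG hb)
  have hopen : IsOpen (G : Set ℝ) := G.isOpen_of_mem_nhds (mem_of_superset hn hsub)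
  have hclo : IsClopen (G : Set ℝ) := ⟨G.isClosed_of_isOpen hopen, hopen⟩
  apply hG
  have := hclo.eq_univ ⟨0, G.zero_mem⟩
  exact AddSubgroup.coe_eq_univ.1 this

end Pool.Agent.Lib.MP_4fc6a2_gt
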